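import Pool.Agent.H79.RV.Stm
import Pool.Agent.H79.RT.Basic

/-!
# MP_a7284e_an, project RV, row V11: the weak type inequality on cubes
-/

set_option autoImplicit false

namespace Pool.Agent.H64.RV

open Finset Classical
open Pool.Agent.H79.RT Pool.Agent.H79.RU Pool.Agent.H79.RV

section basic

variable {n m : ℕ}

theorem wk_sg_sq {i : ℕ} (hi : i < n) (x : Q n) : sg i x * sg i x = 1 := by
  unfold sg
  rw [dif_pos hi]
  split_ifs <;> norm_num

theorem wk_sg_abs (i : ℕ) (x : Q n) : |sg i x| ≤ 1 := by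
  unfold sg
  split_ifs <;> simp

theorem wk_sg_fl (i : ℕ) (x : Q n) : sg i (fl i x) = -sg i x := by
  unfold sg
  by_cases h : i < n
  · rw [dif_pos h, dif_pos h]
    have e : fl i x ⟨i, h⟩ = !x ⟨i, h⟩ := by simp [fl]
    rw [e]
    cases x ⟨i, h⟩ <;> simp
  · rw [dif_neg h, dif_neg h]
    simp

theorem wk_sg_fl_ne {i l : ℕ} (h : i ≠ l) (x : Q n) : sg i (fl l x) = sg i x := by
  unfold sg
  by_cases hi : i < n
  · rw [dif_pos hi, dif_pos hi]
    have e : fl l x ⟨i, hi⟩ = x ⟨i, hi⟩ := by simp [fl, h]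
    rw [e]
  · rw [dif_neg hi, dif_neg hi]

/-- the predictable coefficients -/
noncomputable def wkb (D : ℕ → ℕ → Q n → Q m → ℝ) (i j : ℕ) (x : Q n) (y : Q m) : ℝ :=
  sg i x * sg j y * D i j x y

theorem wkb_pr {D A : ℕ → ℕ → Q n → Q m → ℝ} (h : Ar2 n m D A) (i j : ℕ) :
    Pr i j (wkb D i j) := by
  constructor
  · intro y l hl x
    show sg i (fl l x) * sg j y * D i j (fl l x) y = sg i x * sg j y * D i j x y
    rcases Nat.eq_or_lt_of_le hl with rfl | hl'
    · have e : D i j (fl i x) y = -D i j x y := h.odx i j y x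
      rw [wk_sg_fl, e]
      ring
    · have e : D i j (fl l x) y = D i j x y := h.invx i j y l (by omega) x
      rw [wk_sg_fl_ne (by omega), e]
  · intro x l hl y
    show sg i x * sg j (fl l y) * D i j x (fl l y) = sg i x * sg j y * D i j x y
    rcases Nat.eq_or_lt_of_le hl with rfl | hl'
    · have e : D i j x (fl j y) = -D i j x y := h.ody i j x y
      rw [wk_sg_fl, e]
      ring
    · have e : D i j x (fl l y) = D i j x y := h.invy i j x l (by omega) y
      rw [wk_sg_fl_ne (by omega), e]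

theorem wkb_abs {D A : ℕ → ℕ → Q n → Q m → ℝ} (h : Ar2 n m D A) (i j : ℕ) (x : Q n) (y : Q m) :
    |wkb D i j x y| ≤ A i j x y := by
  unfold wkb
  rw [abs_mul, abs_mul]
  have h1 := wk_sg_abs i x
  have h2 := wk_sg_abs j y
  have h3 : |sg i x| * |sg j y| ≤ 1 := by
    calc |sg i x| * |sg j y| ≤ 1 * 1 := mul_le_mul h1 h2 (abs_nonneg _) (by norm_num)
      _ = 1 := by norm_num
  calc |sg i x| * |sg j y| * |D i j x y| ≤ 1 * |D i j x y| :=
        mul_le_mul_of_nonneg_right h3 (abs_nonneg _)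
    _ = |D i j x y| := one_mul _
    _ ≤ A i j x y := h.dom i j x y

theorem ind_nonneg' (p : Prop) : 0 ≤ ind p := by
  unfold ind
  split_ifs <;> norm_num

/-- the stopping time -/
noncomputable def wkT (D : ℕ → ℕ → Q n → Q m → ℝ) (t : ℝ) (x : Q n) (y : Q m) : ℕ :=
  if h : ∃ k, t < XS D k x y then (h.choose + 1) * (h.choose + 2) / 2 else 0

theorem wkT_pos (D : ℕ → ℕ → Q n → Q m → ℝ) (t : ℝ) (x : Q n) (y : Q m) :
    0 < wkT D t x y ↔ ∃ k, t < XS D k x y := by
  unfold wkT
  by_cases h : ∃ k, t < XS D k x y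
  · rw [dif_pos h]
    refine ⟨fun _ => h, fun _ => ?_⟩
    have h2 : 2 ≤ (h.choose + 1) * (h.choose + 2) := by nlinarith [Nat.zero_le h.choose]
    omega
  · rw [dif_neg h]
    exact ⟨fun h1 => absurd h1 (by omega), fun h1 => absurd h1 h⟩

theorem wk_pt (h10 : STri) (D : ℕ → ℕ → Q n → Q m → ℝ) (t : ℝ) (x : Q n) (y : Q m) :
    t * ind (∃ k, t < XS D k x y) ≤
      ∑ i ∈ range n, ∑ j ∈ range m, D i j x y * ind (tri i j ≤ wkT D t x y) := by
  by_cases h : ∃ k, t < XS D k x y
  · have e1 : ind (∃ k, t < XS D k x y) = 1 := if_pos h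
    obtain ⟨k, hk, e2⟩ : ∃ k, t < XS D k x y ∧ wkT D t x y = (k + 1) * (k + 2) / 2 :=
      ⟨h.choose, h.choose_spec, dif_pos h⟩
    have e3 : ∑ i ∈ range n, ∑ j ∈ range m, D i j x y * ind (tri i j ≤ wkT D t x y) =
        XS D k x y := by
      unfold XS
      refine sum_congr rfl fun i _ => sum_congr rfl fun j _ => ?_
      unfold ind
      rw [e2]
      by_cases h3 : i + j ≤ k
      · rw [if_pos h3, if_pos ((h10.2 i j k).1 h3), mul_one]
      · rw [if_neg h3, if_neg (fun h4 => h3 ((h10.2 i j k).2 h4)), mul_zero]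
    rw [e1, e3, mul_one]
    exact hk.le
  · have e1 : ind (∃ k, t < XS D k x y) = 0 := if_neg h
    have e2 : wkT D t x y = 0 := dif_neg h
    rw [e1, mul_zero]
    refine le_of_eq ?_
    symm
    refine sum_eq_zero fun i _ => sum_eq_zero fun j _ => ?_
    have h3 := h10.1.pos i j
    unfold ind
    rw [e2, if_neg (by omega), mul_zero]

theorem wk_term (h0 : SC2) {D A : ℕ → ℕ → Q n → Q m → ℝ} (h : Ar2 n m D A)
    (T : Q n → Q m → ℕ) {i j : ℕ} (hi : i < n) (hj : j < m) :
    av2 (fun x y => D i j x y * ind (tri i j ≤ T x y)) ≤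
      av2 fun x y => |dd tri T i j x y| * A i j x y := by
  have h1 := (h0 n m i j).2.1 (fun x y => sg i x * sg j y * ind (tri i j ≤ T x y)) (wkb D i j)
    (wkb_pr h i j)
  have h2 : av2 (fun x y => D i j x y * ind (tri i j ≤ T x y)) =
      av2 fun x y => c2 i j (fun x y => sg i x * sg j y * ind (tri i j ≤ T x y)) x y *
        wkb D i j x y := by
    rw [h1]
    congr 1
    funext x y
    unfold wkb
    have a1 := wk_sg_sq hi x
    have a2 := wk_sg_sq hj y
    calc D i j x y * ind (tri i j ≤ T x y) =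
        (sg i x * sg i x) * (sg j y * sg j y) * (D i j x y * ind (tri i j ≤ T x y)) := by
          rw [a1, a2]; ring
      _ = _ := by ring
  rw [h2]
  refine av2_mono fun x y => ?_
  refine (le_abs_self _).trans ?_
  rw [abs_mul]
  exact mul_le_mul_of_nonneg_left (wkb_abs h i j x y) (abs_nonneg _)

theorem wk_young {p q s a b : ℝ} (hpq : p.HolderConjugate q) (hs : 0 < s) (ha : 0 ≤ a)
    (hb : 0 ≤ b) : a * b ≤ 1 / (p * s ^ p) * a ^ p + s ^ q / q * b ^ q := by
  have h1 := Real.young_inequality_of_nonneg (a := a / s) (b := s * b) (by positivity)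
    (by positivity) hpq
  have e1 : a / s * (s * b) = a * b := by
    field_simp
  rw [e1, Real.div_rpow ha hs.le, Real.mul_rpow hs.le hb] at h1
  refine h1.trans (le_of_eq ?_)
  have hp := hpq.pos
  have hs' : 0 < s ^ p := Real.rpow_pos_of_pos hs p
  field_simp

end basic

theorem wk_one (h0 : SC2) (h10 : STri) {q p C : ℝ} (hpq : p.HolderConjugate q) (hC : 0 < C)
    (h9 : ∀ (n m : ℕ) (τ : ℕ → ℕ → ℕ) (T : Q n → Q m → ℕ), Clk τ →
      ∑ i ∈ range n, ∑ j ∈ range m, av2 (fun x y => |dd τ T i j x y| ^ p) ≤ C * sup0 T)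
    {n m : ℕ} {D A : ℕ → ℕ → Q n → Q m → ℝ} (hD : Ar2 n m D A) {t : ℝ} (ht : 0 < t) :
    av2 (fun x y => ind (∃ k, t < XS D k x y)) ≤
      2 / q * (2 * C / p) ^ (q - 1) / t ^ q *
        ∑ i ∈ range n, ∑ j ∈ range m, av2 fun x y => A i j x y ^ q := by
  have hp := hpq.pos
  have hq := hpq.symm.pos
  set T : Q n → Q m → ℕ := wkT D t with hT
  set S : ℝ := ∑ i ∈ range n, ∑ j ∈ range m, av2 fun x y => A i j x y ^ q with hS
  set s : ℝ := (2 * C / (p * t)) ^ (1 / p) with hs
  have hb : 0 < 2 * C / (p * t) := by positivity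
  have hs0 : 0 < s := Real.rpow_pos_of_pos hb _
  have hsp : s ^ p = 2 * C / (p * t) := by
    rw [hs, ← Real.rpow_mul hb.le, one_div, inv_mul_cancel₀ hp.ne', Real.rpow_one]
  have hqp : 1 / p * q = q - 1 := by
    have h1 := hpq.inv_add_inv_eq_one
    have h2 : p⁻¹ = 1 - q⁻¹ := by linarith
    rw [one_div, h2]
    field_simp
  have hsq : s ^ q = (2 * C / p) ^ (q - 1) / t ^ (q - 1) := by
    rw [hs, ← Real.rpow_mul hb.le, hqp, ← Real.div_rpow (by positivity) ht.le]
    congr 1
    field_simp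
  have hsup : sup0 T = av2 fun x y => ind (∃ k, t < XS D k x y) := by
    unfold sup0
    congr 1
    funext x y
    rw [hT, wkT_pos]
  have hE0 : 0 ≤ sup0 T := av2_nonneg fun x y => ind_nonneg' _
  rw [← hsup]
  have h1 : t * sup0 T ≤ ∑ i ∈ range n, ∑ j ∈ range m,
      av2 fun x y => D i j x y * ind (tri i j ≤ T x y) := by
    have e1 : t * sup0 T = av2 fun x y => t * ind (∃ k, t < XS D k x y) := by
      rw [av2_mul_left, hsup]
    have e2 : ∑ i ∈ range n, ∑ j ∈ range m,
        av2 (fun x y => D i j x y * ind (tri i j ≤ T x y)) =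
        av2 fun x y => ∑ i ∈ range n, ∑ j ∈ range m, D i j x y * ind (tri i j ≤ T x y) := by
      rw [av2_sum]
      exact sum_congr rfl fun i _ => (av2_sum _ _).symm
    rw [e1, e2]
    exact av2_mono fun x y => wk_pt h10 D t x y
  have h2 : ∑ i ∈ range n, ∑ j ∈ range m,
      av2 (fun x y => D i j x y * ind (tri i j ≤ T x y)) ≤
      ∑ i ∈ range n, ∑ j ∈ range m, (1 / (p * s ^ p) * av2 (fun x y => |dd tri T i j x y| ^ p) +
        s ^ q / q * av2 fun x y => A i j x y ^ q) := by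
    refine sum_le_sum fun i hi => sum_le_sum fun j hj => ?_
    rw [mem_range] at hi hj
    refine (wk_term h0 hD T hi hj).trans ?_
    rw [← av2_mul_left, ← av2_mul_left, ← av2_add]
    exact av2_mono fun x y => wk_young hpq hs0 (abs_nonneg _) (hD.na i j x y)
  have h3 : ∑ i ∈ range n, ∑ j ∈ range m,
      (1 / (p * s ^ p) * av2 (fun x y => |dd tri T i j x y| ^ p) +
        s ^ q / q * av2 fun x y => A i j x y ^ q) =
      1 / (p * s ^ p) * (∑ i ∈ range n, ∑ j ∈ range m,
        av2 (fun x y => |dd tri T i j x y| ^ p)) + s ^ q / q * S := by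
    rw [hS, mul_sum, mul_sum, ← sum_add_distrib]
    refine sum_congr rfl fun i _ => ?_
    rw [mul_sum, mul_sum, ← sum_add_distrib]
  have h4 := h9 n m tri T h10.1
  have h5 : 1 / (p * s ^ p) * (∑ i ∈ range n, ∑ j ∈ range m,
      av2 (fun x y => |dd tri T i j x y| ^ p)) ≤ t / 2 * sup0 T := by
    refine (mul_le_mul_of_nonneg_left h4 (by positivity)).trans (le_of_eq ?_)
    rw [hsp]
    field_simp
  have h6 : t * sup0 T ≤ t / 2 * sup0 T + s ^ q / q * S := by
    calc t * sup0 T ≤ _ := h1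
      _ ≤ _ := h2
      _ = _ := h3
      _ ≤ _ := by linarith
  have h7 : sup0 T ≤ 2 / t * (s ^ q / q * S) := by
    have h8 : t / 2 * sup0 T ≤ s ^ q / q * S := by linarith
    have h9' : 2 / t * (t / 2 * sup0 T) = sup0 T := by field_simp
    rw [← h9']
    exact mul_le_mul_of_nonneg_left h8 (by positivity)
  refine h7.trans (le_of_eq ?_)
  have e5 : t ^ q = t ^ (q - 1) * t := by
    conv_rhs => rw [← Real.rpow_one t, ← Real.rpow_mul ht.le, one_mul, ← Real.rpow_add ht]
    congr 1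
    ring
  have ht' : 0 < t ^ (q - 1) := Real.rpow_pos_of_pos ht _
  rw [hsq, e5]
  field_simp

theorem wk_neg {n m : ℕ} {D A : ℕ → ℕ → Q n → Q m → ℝ} (h : Ar2 n m D A) :
    Ar2 n m (fun i j x y => -D i j x y) A where
  odx i j y x := by
    show -D i j (fl i x) y = -(-D i j x y)
    have e : D i j (fl i x) y = -D i j x y := h.odx i j y x
    rw [e]
  invx i j y l hl x := by
    show -D i j (fl l x) y = -D i j x y
    have e : D i j (fl l x) y = D i j x y := h.invx i j y l hl x
    rw [e]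
  ody i j x y := by
    show -D i j x (fl j y) = -(-D i j x y)
    have e : D i j x (fl j y) = -D i j x y := h.ody i j x y
    rw [e]
  invy i j x l hl y := by
    show -D i j x (fl l y) = -D i j x y
    have e : D i j x (fl l y) = D i j x y := h.invy i j x l hl y
    rw [e]
  pax := h.pax
  pay := h.pay
  na := h.na
  dom i j x y := by
    rw [abs_neg]
    exact h.dom i j x y
  za := h.za

theorem wk_XS_neg {n m : ℕ} (D : ℕ → ℕ → Q n → Q m → ℝ) (k : ℕ) (x : Q n) (y : Q m) :
    XS (fun i j x y => -D i j x y) k x y = -XS D k x y := by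
  unfold XS
  rw [← sum_neg_distrib]
  refine sum_congr rfl fun i _ => ?_
  rw [← sum_neg_distrib]
  refine sum_congr rfl fun j _ => ?_
  split_ifs <;> simp

theorem wk_MX {n m : ℕ} (D : ℕ → ℕ → Q n → Q m → ℝ) (t : ℝ) (x : Q n) (y : Q m) :
    ind (t < MX D x y) ≤ ind (∃ k, t < XS D k x y) +
      ind (∃ k, t < XS (fun i j x y => -D i j x y) k x y) := by
  by_cases h : t < MX D x y
  · have e : ind (t < MX D x y) = 1 := if_pos h
    rw [e]
    have h1 : ∃ k, t < |XS D k x y| := by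
      unfold MX at h
      rw [Finset.lt_sup'_iff] at h
      obtain ⟨k, _, hk⟩ := h
      exact ⟨k, hk⟩
    obtain ⟨k, hk⟩ := h1
    rcases lt_abs.1 hk with h2 | h2
    · have e1 : ind (∃ k, t < XS D k x y) = 1 := if_pos ⟨k, h2⟩
      rw [e1]
      linarith [ind_nonneg' (∃ k, t < XS (fun i j x y => -D i j x y) k x y)]
    · have e1 : ind (∃ k, t < XS (fun i j x y => -D i j x y) k x y) = 1 :=
        if_pos ⟨k, by rw [wk_XS_neg]; exact h2⟩
      rw [e1]
      linarith [ind_nonneg' (∃ k, t < XS D k x y)]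
  · have e : ind (t < MX D x y) = 0 := if_neg h
    rw [e]
    exact add_nonneg (ind_nonneg' _) (ind_nonneg' _)

/-- V11: the weak type inequality on cubes -/
theorem weak (h0 : SC2) (h9 : SPow) (h10 : STri) : SWeak := by
  intro q hq1 hq2
  have hq0 : 0 < q := by linarith
  have hpq' : q.HolderConjugate (q / (q - 1)) := Real.HolderConjugate.conjExponent hq1
  set p : ℝ := q / (q - 1) with hp
  have hp2 : 2 < p := by
    rw [hp, lt_div_iff₀ (by linarith)]
    linarith
  obtain ⟨C, hC, h9⟩ := h9 p hp2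
  have hC1 : 0 < C + 1 := by linarith
  have h9' : ∀ (n m : ℕ) (τ : ℕ → ℕ → ℕ) (T : Q n → Q m → ℕ), Clk τ →
      ∑ i ∈ range n, ∑ j ∈ range m, av2 (fun x y => |dd τ T i j x y| ^ p) ≤
        (C + 1) * sup0 T := by
    intro n m τ T hτ
    refine (h9 n m τ T hτ).trans ?_
    exact mul_le_mul_of_nonneg_right (by linarith) (av2_nonneg fun x y => ind_nonneg' _)
  have hp0 : 0 < p := by linarith
  refine ⟨2 * (2 / q * (2 * (C + 1) / p) ^ (q - 1)), by positivity, ?_⟩
  intro n m D A hD t ht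
  have h1 := wk_one h0 h10 hpq'.symm hC1 h9' hD ht
  have h2 := wk_one h0 h10 hpq'.symm hC1 h9' (wk_neg hD) ht
  have h3 : av2 (fun x y => ind (t < MX D x y)) ≤
      av2 (fun x y => ind (∃ k, t < XS D k x y)) +
        av2 (fun x y => ind (∃ k, t < XS (fun i j x y => -D i j x y) k x y)) := by
    rw [← av2_add]
    exact av2_mono fun x y => wk_MX D t x y
  refine h3.trans ((add_le_add h1 h2).trans (le_of_eq ?_))
  ring

end Pool.Agent.H64.RV
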